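import Mathlib

/-!
# Rings of finite depth

The smallest class of rings which contains the fields of finite transcendence degree and is closed
under subrings of matrix rings, finite products, filtered extensions and uniform unions.
-/

namespace Pool.Agent.Run7.h822.NV

universe u

/-- `R` is a left Ore domain. -/
def LeftOreDomain (R : Type u) [Ring R] : Prop :=
  Nontrivial R ∧ NoZeroDivisors R ∧ ∀ a b : R, b ≠ 0 → ∃ a' b' : R, b' ≠ 0 ∧ b' * a = a' * b

/-- `w` is a degree function on `R`: on nonzero elements it is additive on products and at most the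
maximum on sums (the value at `0` is irrelevant). -/
def IsDegree {R : Type u} [Ring R] (w : R → ℤ) : Prop :=
  (∀ a b, a ≠ 0 → b ≠ 0 → w (a * b) = w a + w b) ∧
  ∀ a b, a ≠ 0 → b ≠ 0 → a + b ≠ 0 → w (a + b) ≤ max (w a) (w b)

/-- Filtered extensions `j : S → R`: the ring `R` is a left Ore domain, it is free as a right
`S`-module with a basis which contains `1` (this is automatic when `S` is a division ring), and
there are finitely many degree functions on `R` such that the elements of `R` on which all of them
are at most `m` lie in a finitely generated right `S`-submodule, for every `m`. -/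
structure FilteredExt {S R : Type u} [Ring S] [Ring R] (j : S →+* R) : Prop where
  ore : LeftOreDomain R
  free : ∃ (I : Type u) (b : I → R), (∃ i, b i = 1) ∧
    ∀ x : R, ∃! c : I →₀ S, c.sum (fun i s => b i * j s) = x
  bounded : ∃ W : Finset (R → ℤ), (∀ w ∈ W, IsDegree w) ∧
    ∀ m : ℤ, ∃ T : Finset R, ∀ x : R, (∀ w ∈ W, w x ≤ m) →
      ∃ c : R → S, x = ∑ t ∈ T, t * j (c t)

/-- Ore extensions `R = S[t; σ, δ]` with an automorphism `σ`: `t a = σ(a) t + δ(a)` for `a` in `S`,
and the elements of `R` are in a unique way the left polynomials in `t` with coefficients in `S`. -/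
structure OreExt {S R : Type u} [Ring S] [Ring R] (j : S →+* R) (t : R) : Prop where
  comm : ∃ (σ : S ≃+* S) (δ : S → S), ∀ a : S, t * j a = j (σ a) * t + j (δ a)
  free : ∀ x : R, ∃! c : ℕ →₀ S, c.sum (fun i s => j s * t ^ i) = x

/-- Rings of depth at most `k`. -/
inductive Depth : ℕ → ∀ (R : Type u) [Ring R], Prop
  /-- a field which is algebraic over a subfield generated by at most `k` elements -/
  | field (k : ℕ) (F : Type u) [Field F] (s : Finset F) (hs : s.card ≤ k)
      (h : ∀ x : F, IsAlgebraic (Subfield.closure (s : Set F)) x) : Depth k F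
  /-- a ring which embeds in a ring of matrices -/
  | matrix (k : ℕ) (S R : Type u) [Ring S] [Ring R] (n : ℕ) (f : R →+* Matrix (Fin n) (Fin n) S)
      (hf : Function.Injective f) (h : Depth k S) : Depth k R
  /-- a product of two rings -/
  | prod (k : ℕ) (S R : Type u) [Ring S] [Ring R] (hS : Depth k S) (hR : Depth k R) :
      Depth k (S × R)
  /-- an Ore extension of a left Ore domain -/
  | ore (k : ℕ) (S R : Type u) [Ring S] [Ring R] (j : S →+* R) (t : R) (hS : LeftOreDomain S)
      (ht : OreExt j t) (h : Depth k S) : Depth (k + 1) R
  /-- a filtered extension -/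
  | filtered (k : ℕ) (S R : Type u) [Ring S] [Ring R] (j : S →+* R) (hj : FilteredExt j)
      (h : Depth k S) : Depth (k + 1) R
  /-- a ring in which every finite subset lies in a subring of depth at most `k` -/
  | union (k : ℕ) (R : Type u) [Ring R] (L : Finset R → Subring R)
      (hL : ∀ s : Finset R, (s : Set R) ⊆ L s) (h : ∀ s : Finset R, Depth k (L s)) :
      Depth (k + 1) R

end Pool.Agent.Run7.h822.NV
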