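import Pool.Agent.N506.EYL

/-!
# Degree functions on left Ore domains bound
-/

namespace Pool.Agent.Run7.h822.NV

open Pool.Agent.N506.EX

universe u v w

section Val

variable {R : Type u} [Ring R] [NoZeroDivisors R] (hLO : LO R) {E : Type v} [DivisionRing E]
  (j : R →+* E) (hj : Function.Injective j) (hfrac : ∀ a : E, ∃ s r : R, s ≠ 0 ∧ j s * a = j r)
  (w : R → ℤ) (hmul : ∀ a b, a ≠ 0 → b ≠ 0 → w (a * b) = w a + w b)
  (hadd : ∀ a b, a ≠ 0 → b ≠ 0 → a + b ≠ 0 → min (w a) (w b) ≤ w (a + b))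

include hLO hj hmul in
theorem vfrac_mul {a b : E} (ha : a ≠ 0) (hb : b ≠ 0) :
    vfrac j hfrac w (a * b) = vfrac j hfrac w a + vfrac j hfrac w b := by
  have hjne : ∀ x : R, x ≠ 0 → j x ≠ 0 := fun x hx h => hx (hj (by rw [h, map_zero]))
  have hab : a * b ≠ 0 := mul_ne_zero ha hb
  obtain ⟨s, r, hs, h1⟩ := hfrac a
  obtain ⟨s', r', hs', h2⟩ := hfrac b
  have hr : r ≠ 0 := by
    rintro rfl
    rw [map_zero] at h1
    exact (mul_ne_zero (hjne s hs) ha) h1
  have hr' : r' ≠ 0 := by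
    rintro rfl
    rw [map_zero] at h2
    exact (mul_ne_zero (hjne s' hs') hb) h2
  obtain ⟨r'', s'', hs'', h3⟩ := hLO r s' hs'
  have hr'' : r'' ≠ 0 := by
    rintro rfl
    rw [zero_mul] at h3
    exact (mul_ne_zero hs'' hr) h3
  have h4 : j (s'' * s) * (a * b) = j (r'' * r') := by
    rw [_root_.map_mul, _root_.map_mul, ← h2, mul_assoc, ← mul_assoc (j s) a b, h1, ← mul_assoc,
      ← _root_.map_mul, h3, _root_.map_mul, mul_assoc]
  rw [vfrac_eq hLO j hj hfrac w hmul hab (mul_ne_zero hs'' hs) h4,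
    vfrac_eq hLO j hj hfrac w hmul ha hs h1, vfrac_eq hLO j hj hfrac w hmul hb hs' h2,
    hmul _ _ hs'' hs, hmul _ _ hr'' hr']
  have h5 := hmul _ _ hs'' hr
  have h6 := hmul _ _ hr'' hs'
  rw [h3] at h5
  omega

include hLO hj hmul hadd in
theorem vfrac_add {a b : E} (ha : a ≠ 0) (hb : b ≠ 0) (hab : a + b ≠ 0) :
    min (vfrac j hfrac w a) (vfrac j hfrac w b) ≤ vfrac j hfrac w (a + b) := by
  have hjne : ∀ x : R, x ≠ 0 → j x ≠ 0 := fun x hx h => hx (hj (by rw [h, map_zero]))
  obtain ⟨s, r, hs, h1⟩ := hfrac a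
  obtain ⟨s', r', hs', h2⟩ := hfrac b
  obtain ⟨u', u, hu, h3⟩ := hLO s s' hs'
  have hm : u * s ≠ 0 := mul_ne_zero hu hs
  have h4 : j (u * s) * a = j (u * r) := by rw [_root_.map_mul, mul_assoc, h1, _root_.map_mul]
  have h5 : j (u * s) * b = j (u' * r') := by
    rw [h3, _root_.map_mul, mul_assoc, h2, _root_.map_mul]
  have h6 : j (u * s) * (a + b) = j (u * r + u' * r') := by rw [mul_add, h4, h5, _root_.map_add]
  have n1 : u * r ≠ 0 := by
    intro h
    rw [h, map_zero] at h4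
    exact (mul_ne_zero (hjne _ hm) ha) h4
  have n2 : u' * r' ≠ 0 := by
    intro h
    rw [h, map_zero] at h5
    exact (mul_ne_zero (hjne _ hm) hb) h5
  have n3 : u * r + u' * r' ≠ 0 := by
    intro h
    rw [h, map_zero] at h6
    exact (mul_ne_zero (hjne _ hm) hab) h6
  rw [vfrac_eq hLO j hj hfrac w hmul ha hm h4, vfrac_eq hLO j hj hfrac w hmul hb hm h5,
    vfrac_eq hLO j hj hfrac w hmul hab hm h6]
  have := hadd _ _ n1 n2 n3
  omega

end Val

/-- A function with the properties of a nontrivial valuation is a multiple of a discrete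
valuation. -/
theorem exists_dv {E : Type v} [DivisionRing E] (ν : E → ℤ)
    (hmul : ∀ a b, a ≠ 0 → b ≠ 0 → ν (a * b) = ν a + ν b)
    (hadd : ∀ a b, a ≠ 0 → b ≠ 0 → a + b ≠ 0 → min (ν a) (ν b) ≤ ν (a + b))
    (hne : ∃ a, a ≠ 0 ∧ ν a ≠ 0) :
    ∃ (V : DV E) (k : ℕ), 0 < k ∧ ∀ a, a ≠ 0 → ν a = k * V.v a := by
  classical
  have h1 : ν 1 = 0 := by
    have := hmul 1 1 one_ne_zero one_ne_zero
    rw [mul_one] at this
    linarith
  have hinv : ∀ a, a ≠ 0 → ν a⁻¹ = - ν a := by
    intro a ha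
    have := hmul a a⁻¹ ha (inv_ne_zero ha)
    rw [mul_inv_cancel₀ ha, h1] at this
    linarith
  have hpow : ∀ (n : ℕ) a, a ≠ 0 → ν (a ^ n) = n * ν a := by
    intro n a ha
    induction n with
    | zero => simp [h1]
    | succ n ih =>
      rw [pow_succ, hmul _ _ (pow_ne_zero _ ha) ha, ih]
      push_cast
      ring
  have hzpow : ∀ (n : ℤ) a, a ≠ 0 → ν (a ^ n) = n * ν a := by
    intro n a ha
    obtain ⟨m, rfl | rfl⟩ := n.eq_nat_or_neg
    · rw [zpow_natCast, hpow m a ha]
    · rw [zpow_neg, zpow_natCast, hinv _ (pow_ne_zero _ ha), hpow m a ha]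
      ring
  have hex : ∃ n : ℕ, 0 < n ∧ ∃ g, g ≠ 0 ∧ ν g = n := by
    obtain ⟨g, hg, h0⟩ := hne
    refine ⟨(ν g).natAbs, Int.natAbs_pos.mpr h0, ?_⟩
    rcases Int.natAbs_eq (ν g) with h2 | h2
    · exact ⟨g, hg, h2⟩
    · refine ⟨g⁻¹, inv_ne_zero hg, ?_⟩
      rw [hinv g hg]
      omega
  obtain ⟨hk, t, ht0, ht⟩ := Nat.find_spec hex
  set k := Nat.find hex with hkdef
  have hdvd : ∀ g, g ≠ 0 → (k:ℤ) ∣ ν g := by
    intro g hg
    by_contra hnd
    have h2 : 0 < ν g % k := by
      have := Int.emod_nonneg (ν g) (show (k:ℤ) ≠ 0 by omega)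
      rcases this.lt_or_eq with h2 | h2
      · exact h2
      · exact absurd (Int.dvd_of_emod_eq_zero h2.symm) hnd
    have h3 : ν g % k < k := Int.emod_lt_of_pos _ (by omega)
    have h4 := Nat.find_min hex (m := (ν g % k).toNat) (by omega)
    apply h4
    have h5 : g * t ^ (-(ν g / k)) ≠ 0 := mul_ne_zero hg (zpow_ne_zero _ ht0)
    refine ⟨by omega, g * t ^ (-(ν g / k)), h5, ?_⟩
    rw [hmul _ _ hg (zpow_ne_zero _ ht0), hzpow _ _ ht0, ht]
    have h6 := Int.emod_add_mul_ediv (ν g) k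
    have h7 : (((ν g % k).toNat : ℕ) : ℤ) = ν g % k := Int.toNat_of_nonneg h2.le
    rw [h7]
    linarith
  refine ⟨{ v := fun a => ν a / k
            map_mul := fun a b ha hb => by
              rw [hmul a b ha hb, Int.add_ediv_of_dvd_left (hdvd a ha)]
            map_add := fun a b ha hb hab => by
              have h2 := hadd a b ha hb hab
              rcases min_le_iff.mp h2 with h3 | h3
              · exact (min_le_left _ _).trans (Int.ediv_le_ediv (by omega) h3)
              · exact (min_le_right _ _).trans (Int.ediv_le_ediv (by omega) h3)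
            t := t
            t_ne := ht0
            v_t := by
              rw [ht]
              exact Int.ediv_self (by omega) }, k, hk, fun a ha => ?_⟩
  exact (Int.mul_ediv_cancel' (hdvd a ha)).symm

/-- A degree function on a left Ore domain bounds. -/
theorem bdd_deg {R : Type u} [Ring R] [Nontrivial R] [NoZeroDivisors R] (hLO : LO R) (w : R → ℤ)
    (hmul : ∀ a b, a ≠ 0 → b ≠ 0 → w (a * b) = w a + w b)
    (hadd : ∀ a b, a ≠ 0 → b ≠ 0 → a + b ≠ 0 → w (a + b) ≤ max (w a) (w b)) :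
    Bdd R (fun S => {x | x = 0 ∨ w x ≤ S}) := by
  have hOre : Nonempty (OreLocalization.OreSet (nonZeroDivisors R)) := by
    rw [OreLocalization.nonempty_oreSet_iff_of_noZeroDivisors]
    intro r s
    obtain ⟨r', s', hs', h1⟩ := hLO r s (nonZeroDivisors.ne_zero s.2)
    exact ⟨r', ⟨s', mem_nonZeroDivisors_of_ne_zero hs'⟩, h1⟩
  obtain ⟨inst⟩ := hOre
  let E := OreLocalization (nonZeroDivisors R) R
  let j : R →+* E := OreLocalization.numeratorRingHom
  have hj : Function.Injective j := OreLocalization.numeratorHom_inj (by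
    intro x hx
    exact (mem_nonZeroDivisors_iff.mp hx).1)
  have hfrac : ∀ a : E, ∃ s r, s ≠ 0 ∧ j s * a = j r := by
    intro a
    induction a using OreLocalization.ind with
    | _ r s =>
      refine ⟨s, r, nonZeroDivisors.ne_zero s.2, ?_⟩
      change ((s : R) /ₒ 1) * (r /ₒ s) = r /ₒ 1
      exact OreLocalization.mul_cancel
  let w' : R → ℤ := fun x => - w x
  have hmul' : ∀ a b, a ≠ 0 → b ≠ 0 → w' (a * b) = w' a + w' b := by
    intro a b ha hb
    simp only [w', hmul a b ha hb]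
    ring
  have hadd' : ∀ a b, a ≠ 0 → b ≠ 0 → a + b ≠ 0 → min (w' a) (w' b) ≤ w' (a + b) := by
    intro a b ha hb hab
    have := hadd a b ha hb hab
    simp only [w']
    omega
  by_cases hne : ∃ a : E, a ≠ 0 ∧ vfrac j hfrac w' a ≠ 0
  · obtain ⟨V, k, hk, hV⟩ := exists_dv (vfrac j hfrac w')
      (fun a b ha hb => vfrac_mul hLO j hj hfrac w' hmul' ha hb)
      (fun a b ha hb hab => vfrac_add hLO j hj hfrac w' hmul' hadd' ha hb hab) hne
    refine (Bdd.dv V j).mono fun S => ⟨k * S, ?_⟩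
    intro x hx
    by_cases hx0 : x = 0
    · exact Or.inl hx0
    refine Or.inr ?_
    have hjx : j x ≠ 0 := fun h => hx0 (hj (by rw [h, map_zero]))
    have h1 : -(S:ℤ) ≤ V.v (j x) := (hx : j x = 0 ∨ _).resolve_left hjx
    have h2 := hV (j x) hjx
    have h3 : vfrac j hfrac w' (j x) = w' x := by
      rw [vfrac_eq hLO j hj hfrac w' hmul' hjx one_ne_zero (r := x) (by rw [map_one, one_mul])]
      have h4 := hmul' 1 1 one_ne_zero one_ne_zero
      rw [mul_one] at h4
      omega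
    rw [h3] at h2
    have h4 : w x = - (k * V.v (j x)) := by
      simp only [w'] at h2
      omega
    rw [h4]
    push_cast
    have h5 : (0:ℤ) ≤ k := by omega
    nlinarith
  · push Not at hne
    refine Bdd.univ.mono fun S => ⟨0, ?_⟩
    intro x _
    by_cases hx0 : x = 0
    · exact Or.inl hx0
    refine Or.inr ?_
    have hjx : j x ≠ 0 := fun h => hx0 (hj (by rw [h, map_zero]))
    have h3 : vfrac j hfrac w' (j x) = w' x := by
      rw [vfrac_eq hLO j hj hfrac w' hmul' hjx one_ne_zero (r := x) (by rw [map_one, one_mul])]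
      have h4 := hmul' 1 1 one_ne_zero one_ne_zero
      rw [mul_one] at h4
      omega
    have h4 := hne (j x) hjx
    rw [h3] at h4
    simp only [w'] at h4
    omega

end Pool.Agent.Run7.h822.NV
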