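import Pool.Agent.N506.EYL

/-!
# Fields of finite transcendence degree are good
-/

namespace Pool.Agent.Run7.h822.NV

open Pool.Agent.N506.EX Polynomial

universe u v w

/-- Polynomial rings, with a uniform depth. -/
theorem exists_poly : ∃ e : ℕ, ∀ (A : Type u) [CommRing A] [IsDomain A] (d : ℕ), Good A d →
    Good A[X] (d + e) := by
  classical
  obtain ⟨e, he⟩ := (polyTFA_ZU.{u}).good
  refine ⟨e, fun A _ _ d h => (he A d h).of_injective
    (Polynomial.aeval (R := A) (MonoidAlgebra.single (zt.{u}) (1 : A))).toRingHom ?_⟩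
  have h1 : ∀ (p : A[X]) (n : ℕ), (Polynomial.aeval (R := A)
      (MonoidAlgebra.single (zt.{u}) (1 : A)) p).coeff (zt ^ n) = p.coeff n := by
    intro p n
    induction p using Polynomial.induction_on' with
    | add p q hp hq =>
      rw [map_add, MonoidAlgebra.coeff_add, Finsupp.add_apply, hp, hq, Polynomial.coeff_add]
    | monomial m a =>
      rw [Polynomial.aeval_monomial, MonoidAlgebra.single_pow, one_pow, ← Algebra.smul_def,
        MonoidAlgebra.coeff_smul, Finsupp.smul_apply, MonoidAlgebra.coeff_single,
        Finsupp.single_apply, Polynomial.coeff_monomial]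
      by_cases hmn : m = n
      · rw [if_pos hmn, if_pos (by rw [hmn]), smul_eq_mul, mul_one]
      · rw [if_neg hmn, if_neg (fun h => hmn (zt_pow_injective h)), smul_zero]
  intro p q hpq
  ext n
  rw [← h1 p n, ← h1 q n]
  exact congrArg (fun x => x.coeff (zt ^ n)) hpq

/-- The polynomial depth increment. -/
noncomputable def pe : ℕ := (exists_poly.{u}).choose

theorem pe_spec (A : Type u) [CommRing A] [IsDomain A] (d : ℕ) (h : Good A d) :
    Good A[X] (d + pe.{u}) := (exists_poly.{u}).choose_spec A d h

/-- Localizations of polynomial rings. -/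
theorem good_away {A : Type u} [CommRing A] [IsDomain A] (F : A[X]) {d : ℕ} (h : Good A d)
    (hF : F.Monic) (hd : 0 < F.natDegree) : Good (Localization.Away F) (d + pe.{u}) := by
  classical
  have h1 := pe_spec A d h
  have hF0 : F ≠ 0 := hF.ne_zero
  have h2 : Good (B₁ A) (d + pe.{u}) := h1.matrix _
    (Algebra.leftMulMatrix (AdjoinRoot.powerBasis' (P₁_monic A)).basis).toRingHom
    (Algebra.leftMulMatrix_injective _)
  have h3 : Good (B₂ F) (d + pe.{u}) := h2.matrix _
    (Algebra.leftMulMatrix (AdjoinRoot.powerBasis' (P₂_monic F hF hd)).basis).toRingHom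
    (Algebra.leftMulMatrix_injective _)
  refine h3.of_injective (IsLocalization.Away.lift (S := Localization.Away F) F (α₂_F F)) ?_
  rw [injective_iff_map_eq_zero]
  intro z hz
  obtain ⟨⟨a, s⟩, hs⟩ := IsLocalization.surj (Submonoid.powers F) z
  have h4 := congrArg (IsLocalization.Away.lift (S := Localization.Away F) F (α₂_F F)) hs
  rw [map_mul, hz, zero_mul, IsLocalization.Away.lift_eq] at h4
  have h5 := Θ₂_α₂ F hF0 a
  rw [← h4, map_zero] at h5
  have h6 : a = 0 := IsFractionRing.injective A[X] (TT' A) (by rw [← h5, map_zero])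
  rw [h6, map_zero] at hs
  exact (IsLocalization.map_units (Localization.Away F) s).mul_left_eq_zero.mp hs

/-- Rational function fields. -/
theorem good_ratFunc {K : Type u} [Field K] {d : ℕ} (hK : Good K d) (hd0 : 0 < d) :
    Good (RatFunc K) (d + pe.{u} + 1) := by
  classical
  refine Good.of_local (by omega) fun s hs => ?_
  obtain ⟨s, rfl⟩ := hs.exists_finset_coe
  obtain ⟨b, hb⟩ := IsLocalization.exist_integer_multiples_of_finset (nonZeroDivisors K[X]) s
  have hb0 : (b : K[X]) ≠ 0 := nonZeroDivisors.coe_ne_zero b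
  -- a monic denominator of positive degree
  obtain ⟨f, hfm, hfd, hf⟩ : ∃ f : K[X], f.Monic ∧ 0 < f.natDegree ∧
      ∀ x ∈ s, ∃ p : K[X], algebraMap K[X] (RatFunc K) f * x = algebraMap K[X] (RatFunc K) p := by
    have h0 : X * (b : K[X]) ≠ 0 := mul_ne_zero X_ne_zero hb0
    have hlc : (X * (b : K[X])).leadingCoeff ≠ 0 := leadingCoeff_ne_zero.mpr h0
    refine ⟨(X * (b : K[X])) * C (X * (b : K[X])).leadingCoeff⁻¹,
      monic_mul_leadingCoeff_inv h0, ?_, fun x hx => ?_⟩
    · rw [natDegree_mul_C (inv_ne_zero hlc), natDegree_X_mul hb0]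
      omega
    · obtain ⟨a, ha⟩ := hb x hx
      refine ⟨X * C (X * (b : K[X])).leadingCoeff⁻¹ * a, ?_⟩
      rw [map_mul, map_mul, map_mul, ha, Algebra.smul_def, map_mul]
      change _ = _ * (algebraMap K[X] (RatFunc K) (b : K[X]) * x)
      ring
  choose! p hp using hf
  have hL := good_away f hK hfm hfd
  let g : K[X] →+* RatFunc K := algebraMap K[X] (RatFunc K)
  have hg : Function.Injective g := IsFractionRing.injective K[X] (RatFunc K)
  have hgF : IsUnit (g f) := by
    rw [isUnit_iff_ne_zero]
    intro h
    exact hfm.ne_zero (hg (by rw [h, map_zero]))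
  let Λ : Localization.Away f →+* RatFunc K := IsLocalization.Away.lift f hgF
  have hΛ : Function.Injective Λ := by
    rw [injective_iff_map_eq_zero]
    intro z hz
    obtain ⟨⟨a, t⟩, ht⟩ := IsLocalization.surj (Submonoid.powers f) z
    have h4 := congrArg Λ ht
    rw [map_mul, hz, zero_mul, IsLocalization.Away.lift_eq] at h4
    have h6 : a = 0 := hg (by rw [← h4, map_zero])
    rw [h6, map_zero] at ht
    exact (IsLocalization.map_units (Localization.Away f) t).mul_left_eq_zero.mp ht
  refine ⟨Λ.range, fun x hx => ?_, hL.range Λ hΛ⟩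
  refine ⟨IsLocalization.mk' (Localization.Away f) (p x)
    (⟨f, Submonoid.mem_powers f⟩ : Submonoid.powers f), ?_⟩
  have h1 : Λ (algebraMap K[X] (Localization.Away f) f) ≠ 0 := by
    rw [IsLocalization.Away.lift_eq]
    exact hgF.ne_zero
  apply mul_left_cancel₀ h1
  rw [← map_mul, mul_comm (algebraMap K[X] (Localization.Away f) f),
    show algebraMap K[X] (Localization.Away f) f = algebraMap K[X] (Localization.Away f)
      ((⟨f, Submonoid.mem_powers f⟩ : Submonoid.powers f) : K[X]) from rfl,
    IsLocalization.mk'_spec, IsLocalization.Away.lift_eq, IsLocalization.Away.lift_eq]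
  exact (hp x hx).symm

/-- Finite extensions, with the same depth. -/
theorem good_finiteDimensional {F : Type u} [Field F] {K : Type u} [Field K] [Algebra F K]
    [FiniteDimensional F K] {d : ℕ} (hF : Good F d) : Good K d := by
  classical
  let b := Module.finBasis F K
  exact hF.matrix _ (Algebra.leftMulMatrix b).toRingHom (Algebra.leftMulMatrix_injective _)

/-- Algebraic extensions. -/
theorem good_algebraic {F : Type u} [Field F] {K : Type u} [Field K] [Algebra F K]
    (hK : ∀ x : K, IsAlgebraic F x) {d : ℕ} (hF : Good F d) (hd : 0 < d) : Good K (d + 1) := by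
  classical
  refine Good.of_local hd fun s hs => ?_
  have : Finite s := hs
  refine ⟨(IntermediateField.adjoin F s).toSubring, IntermediateField.subset_adjoin F _, ?_⟩
  have h1 : FiniteDimensional F (IntermediateField.adjoin F s) :=
    IntermediateField.finiteDimensional_adjoin fun x _ => (hK x).isIntegral
  exact good_finiteDimensional (F := F) (K := IntermediateField.adjoin F s) hF

open IntermediateField in
/-- Simple extensions. -/
theorem good_simple {K : Type u} [Field K] {E : Type u} [Field E] [Algebra K E] {d : ℕ}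
    (hK : Good K d) (hd : 0 < d) (x : E) : Good K⟮x⟯ (d + pe.{u} + 1) := by
  by_cases hx : IsAlgebraic K x
  · have : FiniteDimensional K K⟮x⟯ := IntermediateField.adjoin.finiteDimensional hx.isIntegral
    exact (good_finiteDimensional (F := K) (K := K⟮x⟯) hK).le (by omega)
  · have e := RatFunc.algEquivOfTranscendental (K := K) x hx
    exact (good_ratFunc hK hd).of_injective (e.symm : K⟮x⟯ →+* RatFunc K) e.symm.injective

/-- Finitely generated extensions. -/
theorem good_adjoin {F : Type u} [Field F] {E : Type u} [Field E] [Algebra F E] {d : ℕ}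
    (hF : Good F d) (hd : 0 < d) (s : Finset E) :
    Good (IntermediateField.adjoin F (s : Set E)) (d + s.card * (pe.{u} + 1)) := by
  classical
  induction s using Finset.induction_on with
  | empty =>
    rw [Finset.coe_empty, IntermediateField.adjoin_empty, Finset.card_empty, zero_mul, add_zero]
    exact hF.of_injective ((IntermediateField.botEquiv F E : _ ≃ₐ[F] F) :
      (⊥ : IntermediateField F E) →+* F) (IntermediateField.botEquiv F E).injective
  | insert x s hx ih =>
    have h1 : Good (IntermediateField.adjoin (IntermediateField.adjoin F (s : Set E)) {x})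
        (d + s.card * (pe.{u} + 1) + pe.{u} + 1) := good_simple ih (by omega) x
    have h2 : (IntermediateField.adjoin (IntermediateField.adjoin F (s : Set E)) {x}).restrictScalars
        F = IntermediateField.adjoin F ((insert x s : Finset E) : Set E) := by
      rw [IntermediateField.adjoin_adjoin_left, Finset.coe_insert, Set.insert_eq, Set.union_comm]
    rw [← h2, Finset.card_insert_of_notMem hx]
    have h3 : d + (s.card + 1) * (pe.{u} + 1) = d + s.card * (pe.{u} + 1) + pe.{u} + 1 := by ring
    rw [h3]
    exact h1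

theorem good_rat : Good (ULift.{u} ℚ) 4 := by
  classical
  refine Good.of_local (d := 3) (by omega) fun s hs => ?_
  obtain ⟨s, rfl⟩ := hs.exists_finset_coe
  obtain ⟨b, hb⟩ := IsLocalization.exist_integer_multiples_of_finset (nonZeroDivisors ℤ)
    (s.image (ULift.ringEquiv : ULift.{u} ℚ ≃+* ℚ))
  let S : Subring (ULift.{u} ℚ) :=
    (away ℤ ℚ b).comap (ULift.ringEquiv : ULift.{u} ℚ ≃+* ℚ).toRingHom
  refine ⟨S, fun x hx => ?_, ?_⟩
  · obtain ⟨a, ha⟩ := hb (ULift.ringEquiv x) (Finset.mem_image_of_mem _ hx)
    refine ⟨1, a, ?_⟩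
    rw [pow_one, ha, Algebra.smul_def]
    rfl
  · exact Pool.Agent.N506.EX.good_away
      ((ULift.ringEquiv : ULift.{u} ℚ ≃+* ℚ).toRingHom.comp S.subtype)
      (fun x y hxy => Subtype.ext (ULift.ringEquiv.injective hxy)) b
      (nonZeroDivisors.coe_ne_zero b) (fun r => r.2)

/-- Fields of finite transcendence degree. -/
theorem good_field (k : ℕ) (K : Type u) [Field K] (s : Finset K) (hs : s.card ≤ k)
    (h : ∀ x : K, IsAlgebraic (Subfield.closure (s : Set K)) x) :
    Good K (5 + k * (pe.{u} + 1)) := by
  -- the general step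
  have main : ∀ (F : Type u) [Field F] [Algebra F K], Good F 4 →
      Good K (5 + k * (pe.{u} + 1)) := by
    intro F _ _ hF
    have h1 := good_adjoin hF (by omega) s
    have h2 : Good (IntermediateField.adjoin F (s : Set K)) (4 + k * (pe.{u} + 1)) :=
      h1.le (by
        have := Nat.mul_le_mul_right (pe.{u} + 1) hs
        omega)
    have h3 : Subfield.closure (s : Set K) ≤
        (IntermediateField.adjoin F (s : Set K)).toSubfield :=
      Subfield.closure_le.mpr (IntermediateField.subset_adjoin F _)
    have h4 := good_algebraic (F := IntermediateField.adjoin F (s : Set K)) (K := K) ?_ h2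
      (by omega)
    · refine h4.le (by omega)
    · intro x
      obtain ⟨p, hp, hp0⟩ := h x
      refine ⟨p.map (Subfield.inclusion h3), ?_, ?_⟩
      · exact (Polynomial.map_ne_zero_iff (Subfield.inclusion h3).injective).mpr hp
      · rw [Polynomial.aeval_def, Polynomial.eval₂_map]
        exact hp0
  obtain ⟨p, hp⟩ := CharP.exists K
  rcases CharP.char_is_prime_or_zero K p with hprime | h0
  · have : Fact p.Prime := ⟨hprime⟩
    let _ : Algebra (ULift.{u} (ZMod p)) K :=
      ((ZMod.castHom (dvd_refl p) K).comp
        (ULift.ringEquiv : ULift.{u} (ZMod p) ≃+* ZMod p).toRingHom).toAlgebra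
    exact main (ULift.{u} (ZMod p)) (Good.of_finite.le (by omega))
  · subst h0
    have : CharZero K := CharP.charP_to_charZero K
    let _ : Algebra (ULift.{u} ℚ) K :=
      ((algebraMap ℚ K).comp (ULift.ringEquiv : ULift.{u} ℚ ≃+* ℚ).toRingHom).toAlgebra
    exact main (ULift.{u} ℚ) good_rat

end Pool.Agent.Run7.h822.NV
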