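import Pool.Agent.N506.EYL
import Pool.Agent.Run7.h822.NV.Defs

/-!
# Ore extensions are filtered extensions
-/

namespace Pool.Agent.Run7.h822.NV

open Pool.Agent.N506.EX

universe u v w

section

variable {S R : Type u} [Ring S] [Ring R] {j : S →+* R} {t : R}

/-- The left coordinates. -/
noncomputable def OreExt.cL (h : OreExt j t) : R →+ (ℕ →₀ S) where
  toFun x := (h.free x).choose
  map_zero' := by
    refine ((h.free 0).choose_spec.2 0 ?_).symm
    exact Finsupp.sum_zero_index
  map_add' x y := by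
    refine ((h.free (x + y)).choose_spec.2 _ ?_).symm
    simp only
    rw [Finsupp.sum_add_index' (fun i => by rw [map_zero, zero_mul])
      (fun i s r => by rw [map_add, add_mul]), (h.free x).choose_spec.1, (h.free y).choose_spec.1]

theorem OreExt.sum_cL (h : OreExt j t) (x : R) : (h.cL x).sum (fun i s => j s * t ^ i) = x :=
  (h.free x).choose_spec.1

theorem OreExt.cL_eq (h : OreExt j t) {x : R} {c : ℕ →₀ S}
    (hc : c.sum (fun i s => j s * t ^ i) = x) : h.cL x = c :=
  ((h.free x).choose_spec.2 c hc).symm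

theorem OreExt.cL_mul (h : OreExt j t) (a : S) (x : R) (i : ℕ) :
    h.cL (j a * x) i = a * h.cL x i := by
  have h1 : h.cL (j a * x) = (h.cL x).mapRange (fun s => a * s) (mul_zero a) := by
    refine h.cL_eq ?_
    rw [Finsupp.sum_mapRange_index (fun i => by rw [map_zero, zero_mul])]
    conv_rhs => rw [← h.sum_cL x]
    rw [Finsupp.sum, Finsupp.sum, Finset.mul_sum]
    exact Finset.sum_congr rfl fun i _ => by rw [map_mul, mul_assoc]
  rw [h1, Finsupp.mapRange_apply]

theorem OreExt.cL_mono (h : OreExt j t) (a : S) (i : ℕ) :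
    h.cL (j a * t ^ i) = Finsupp.single i a := by
  refine h.cL_eq ?_
  rw [Finsupp.sum_single_index (by rw [map_zero, zero_mul])]

theorem OreExt.cL_pow (h : OreExt j t) (i : ℕ) : h.cL (t ^ i) = Finsupp.single i 1 := by
  have := h.cL_mono 1 i
  rwa [map_one, one_mul] at this

theorem OreExt.cL_j (h : OreExt j t) (a : S) : h.cL (j a) = Finsupp.single 0 a := by
  have := h.cL_mono a 0
  rwa [pow_zero, mul_one] at this

/-- The elements of degree at most `n`. -/
def OreExt.F (h : OreExt j t) (n : ℕ) : Set R := {x | ∀ i, n < i → h.cL x i = 0}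

theorem OreExt.F_add (h : OreExt j t) {n : ℕ} {x y : R} (hx : x ∈ h.F n) (hy : y ∈ h.F n) :
    x + y ∈ h.F n := by
  intro i hi
  rw [map_add, Finsupp.add_apply, hx i hi, hy i hi, add_zero]

theorem OreExt.F_neg (h : OreExt j t) {n : ℕ} {x : R} (hx : x ∈ h.F n) : -x ∈ h.F n := by
  intro i hi
  rw [map_neg, Finsupp.neg_apply, hx i hi, neg_zero]

theorem OreExt.F_mono (h : OreExt j t) {n m : ℕ} (hnm : n ≤ m) {x : R} (hx : x ∈ h.F n) :
    x ∈ h.F m := fun i hi => hx i (by omega)

theorem OreExt.F_sum (h : OreExt j t) {ι : Type*} (s : Finset ι) (f : ι → R) (n : ℕ)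
    (hf : ∀ i ∈ s, f i ∈ h.F n) : ∑ i ∈ s, f i ∈ h.F n := by
  intro i hi
  rw [map_sum, Finsupp.finsetSum_apply]
  exact Finset.sum_eq_zero fun k hk => hf k hk i hi

theorem OreExt.exists_F (h : OreExt j t) (x : R) : ∃ n, x ∈ h.F n := by
  refine ⟨(h.cL x).support.sup id, fun i hi => ?_⟩
  by_contra h1
  have := Finset.le_sup (f := id) (Finsupp.mem_support_iff.mpr h1)
  simp only [id] at this
  omega

variable (σ : S ≃+* S) (δ : S → S) (hσ : ∀ a : S, t * j a = j (σ a) * t + j (δ a))

include hσ in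
/-- Multiplication by `t`. -/
theorem OreExt.t_mul (h : OreExt j t) {n : ℕ} {x : R} (hx : x ∈ h.F n) :
    t * x ∈ h.F (n + 1) ∧ h.cL (t * x) (n + 1) = σ (h.cL x n) := by
  classical
  have h1 : t * x = ∑ i ∈ (h.cL x).support,
      (j (σ (h.cL x i)) * t ^ (i + 1) + j (δ (h.cL x i)) * t ^ i) := by
    conv_lhs => rw [← h.sum_cL x]
    rw [Finsupp.sum, Finset.mul_sum]
    refine Finset.sum_congr rfl fun i _ => ?_
    rw [← mul_assoc, hσ, add_mul, mul_assoc, ← pow_succ']
  have h2 : ∀ l, h.cL (t * x) l = ∑ i ∈ (h.cL x).support,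
      (Finsupp.single (i + 1) (σ (h.cL x i)) l + Finsupp.single i (δ (h.cL x i)) l) := by
    intro l
    rw [h1, map_sum, Finsupp.finsetSum_apply]
    refine Finset.sum_congr rfl fun i _ => ?_
    rw [map_add, h.cL_mono, h.cL_mono, Finsupp.add_apply]
  have hle : ∀ i ∈ (h.cL x).support, i ≤ n := by
    intro i hi
    by_contra h3
    exact (Finsupp.mem_support_iff.mp hi) (hx i (by omega))
  constructor
  · intro l hl
    rw [h2]
    refine Finset.sum_eq_zero fun i hi => ?_
    have := hle i hi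
    rw [Finsupp.single_apply, Finsupp.single_apply, if_neg (by omega), if_neg (by omega), add_zero]
  · rw [h2]
    by_cases h3 : n ∈ (h.cL x).support
    · rw [Finset.sum_eq_single n]
      · rw [Finsupp.single_apply, Finsupp.single_apply, if_pos rfl, if_neg (by omega), add_zero]
      · intro i hi hin
        have := hle i hi
        rw [Finsupp.single_apply, Finsupp.single_apply, if_neg (by omega), if_neg (by omega),
          add_zero]
      · intro h4
        exact absurd h3 h4
    · rw [Finsupp.notMem_support_iff.mp h3, map_zero]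
      refine Finset.sum_eq_zero fun i hi => ?_
      have := hle i hi
      have h5 : i ≠ n := fun h5 => h3 (h5 ▸ hi)
      rw [Finsupp.single_apply, Finsupp.single_apply, if_neg (by omega), if_neg (by omega),
        add_zero]

include hσ in
theorem OreExt.pow_mul (h : OreExt j t) (m : ℕ) {n : ℕ} {x : R} (hx : x ∈ h.F n) :
    t ^ m * x ∈ h.F (n + m) ∧ h.cL (t ^ m * x) (n + m) = (σ ^ m : S ≃+* S) (h.cL x n) := by
  induction m with
  | zero => simpa using hx
  | succ m ih =>
    have h1 := h.t_mul σ δ hσ ih.1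
    rw [← mul_assoc, ← pow_succ'] at h1
    refine ⟨h1.1, ?_⟩
    rw [← add_assoc, h1.2, ih.2, pow_succ']
    rfl

include hσ in
theorem OreExt.mul_mem (h : OreExt j t) {m n : ℕ} {y x : R} (hy : y ∈ h.F m) (hx : x ∈ h.F n) :
    y * x ∈ h.F (n + m) ∧
      h.cL (y * x) (n + m) = h.cL y m * (σ ^ m : S ≃+* S) (h.cL x n) := by
  classical
  have h1 : y * x = ∑ i ∈ (h.cL y).support, j (h.cL y i) * (t ^ i * x) := by
    conv_lhs => rw [← h.sum_cL y]
    rw [Finsupp.sum, Finset.sum_mul]
    exact Finset.sum_congr rfl fun i _ => mul_assoc _ _ _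
  have hle : ∀ i ∈ (h.cL y).support, i ≤ m := by
    intro i hi
    by_contra h3
    exact (Finsupp.mem_support_iff.mp hi) (hy i (by omega))
  have h2 : ∀ l, h.cL (y * x) l = ∑ i ∈ (h.cL y).support, h.cL y i * h.cL (t ^ i * x) l := by
    intro l
    rw [h1, map_sum, Finsupp.finsetSum_apply]
    exact Finset.sum_congr rfl fun i _ => h.cL_mul _ _ _
  constructor
  · intro l hl
    rw [h2]
    refine Finset.sum_eq_zero fun i hi => ?_
    have := hle i hi
    rw [(h.pow_mul σ δ hσ i hx).1 l (by omega), mul_zero]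
  · rw [h2]
    by_cases h3 : m ∈ (h.cL y).support
    · rw [Finset.sum_eq_single m]
      · rw [(h.pow_mul σ δ hσ m hx).2]
      · intro i hi him
        have := hle i hi
        rw [(h.pow_mul σ δ hσ i hx).1 (n + m) (by omega), mul_zero]
      · intro h4
        exact absurd h3 h4
    · rw [Finsupp.notMem_support_iff.mp h3, zero_mul]
      refine Finset.sum_eq_zero fun i hi => ?_
      have := hle i hi
      have h5 : i ≠ m := fun h5 => h3 (h5 ▸ hi)
      rw [(h.pow_mul σ δ hσ i hx).1 (n + m) (by omega), mul_zero]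

/-- The degree. -/
noncomputable def OreExt.deg (h : OreExt j t) (x : R) : ℕ := (h.cL x).support.sup id

theorem OreExt.mem_F (h : OreExt j t) {x : R} {n : ℕ} : x ∈ h.F n ↔ h.deg x ≤ n := by
  constructor
  · intro hx
    refine Finset.sup_le fun i hi => ?_
    by_contra h1
    exact (Finsupp.mem_support_iff.mp hi) (hx i (by simpa using h1))
  · intro hx i hi
    by_contra h1
    have := Finset.le_sup (f := id) (Finsupp.mem_support_iff.mpr h1)
    simp only [id] at this
    unfold OreExt.deg at hx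
    omega

theorem OreExt.cL_ne (h : OreExt j t) {x : R} (hx : x ≠ 0) : h.cL x ≠ 0 := by
  intro h1
  apply hx
  rw [← h.sum_cL x, h1, Finsupp.sum_zero_index]

theorem OreExt.lead_ne (h : OreExt j t) {x : R} (hx : x ≠ 0) : h.cL x (h.deg x) ≠ 0 := by
  have h1 : (h.cL x).support.Nonempty := Finsupp.support_nonempty_iff.mpr (h.cL_ne hx)
  obtain ⟨i, hi, h2⟩ := Finset.exists_mem_eq_sup (h.cL x).support h1 id
  have h3 : h.deg x = i := h2
  rw [h3]
  exact Finsupp.mem_support_iff.mp hi

theorem OreExt.deg_eq (h : OreExt j t) {x : R} {n : ℕ} (hx : x ∈ h.F n) (hn : h.cL x n ≠ 0) :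
    h.deg x = n := by
  have h1 := h.mem_F.mp hx
  have h2 : n ≤ h.deg x := Finset.le_sup (f := id) (Finsupp.mem_support_iff.mpr hn)
  omega

variable [Nontrivial S] [NoZeroDivisors S]

include hσ in
theorem OreExt.mul_spec (h : OreExt j t) {y x : R} (hy : y ≠ 0) (hx : x ≠ 0) :
    y * x ≠ 0 ∧ h.deg (y * x) = h.deg y + h.deg x := by
  have h1 := h.mul_mem σ δ hσ (h.mem_F.mpr (le_refl (h.deg y))) (h.mem_F.mpr (le_refl (h.deg x)))
  have h2 : h.cL (y * x) (h.deg x + h.deg y) ≠ 0 := by
    rw [h1.2]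
    refine mul_ne_zero (h.lead_ne hy) ?_
    exact (EmbeddingLike.map_ne_zero_iff).mpr (h.lead_ne hx)
  refine ⟨fun h3 => h2 (by rw [h3, map_zero]; rfl), ?_⟩
  rw [h.deg_eq h1.1 h2, add_comm]

include hσ in
theorem OreExt.noZeroDivisors (h : OreExt j t) : NoZeroDivisors R where
  eq_zero_or_eq_zero_of_mul_eq_zero := by
    intro a b hab
    by_contra hcon
    push Not at hcon
    exact (h.mul_spec σ δ hσ hcon.1 hcon.2).1 hab

omit [NoZeroDivisors S] in
theorem OreExt.nontrivial (h : OreExt j t) : Nontrivial R := by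
  refine ⟨⟨0, 1, fun h1 => ?_⟩⟩
  have h2 := h.cL_pow 0
  rw [pow_zero, ← h1, map_zero] at h2
  have h3 := congrArg (fun c : ℕ →₀ S => c 0) h2
  simp at h3

include hσ in
/-- The left Ore condition. -/
theorem OreExt.lo (h : OreExt j t) (hS : LO S) : LO R := by
  classical
  have hnz : NoZeroDivisors R := h.noZeroDivisors σ δ hσ
  intro a b hb
  obtain ⟨B1, hB1⟩ := h.exists_F a
  obtain ⟨B2, hB2⟩ := h.exists_F b
  obtain ⟨B, hBa, hBb⟩ : ∃ B : ℕ, a ∈ h.F B ∧ b ∈ h.F B :=
    ⟨max B1 B2, h.F_mono (le_max_left _ _) hB1, h.F_mono (le_max_right _ _) hB2⟩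
  -- the unknowns
  let v : Fin (B + 1) ⊕ Fin (B + 1) → R := Sum.elim
    (fun i => t ^ (i : ℕ) * a) (fun i => -(t ^ (i : ℕ) * b))
  have hv : ∀ i, v i ∈ h.F (2 * B) := by
    rintro (i | i)
    · exact h.F_mono (by have := i.2; omega) (h.pow_mul σ δ hσ i hBa).1
    · exact h.F_neg (h.F_mono (by have := i.2; omega) (h.pow_mul σ δ hσ i hBb).1)
  obtain ⟨x, hx, hsol⟩ := hS.system' (ι := Fin (B + 1) ⊕ Fin (B + 1))
    (κ := Fin (2 * B + 1)) (by simp; omega) (fun i l => h.cL (v i) (l : ℕ))
  have hy : ∑ i, j (x i) * v i = 0 := by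
    by_contra hne
    apply h.cL_ne hne
    ext l
    by_cases hl : l < 2 * B + 1
    · have h2 := hsol ⟨l, hl⟩
      rw [map_sum, Finsupp.finsetSum_apply]
      simp only [h.cL_mul]
      exact h2
    · exact (h.F_sum Finset.univ _ (2 * B) (fun i _ => by
        intro l hl
        rw [h.cL_mul, hv i l hl, mul_zero])) l (by omega)
  have key : ∀ y : Fin (B + 1) → S, ∑ i, j (y i) * t ^ (i : ℕ) = 0 → ∀ i, y i = 0 := by
    intro y hy0 i
    have h1 := congrArg (fun z => h.cL z (i : ℕ)) hy0
    simp only [map_sum, map_zero, Finsupp.finsetSum_apply, h.cL_mono] at h1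
    rw [Finset.sum_eq_single i, Finsupp.single_eq_same] at h1
    · exact h1
    · intro k _ hk
      rw [Finsupp.single_apply, if_neg (fun h2 => hk (Fin.ext h2))]
    · intro h2
      exact absurd (Finset.mem_univ _) h2
  rw [Fintype.sum_sum_type] at hy
  simp only [v, Sum.elim_inl, Sum.elim_inr, mul_neg, ← mul_assoc] at hy
  rw [Finset.sum_neg_distrib, ← Finset.sum_mul, ← Finset.sum_mul, ← sub_eq_add_neg,
    sub_eq_zero] at hy
  refine ⟨∑ i, j (x (Sum.inr i)) * t ^ (i : ℕ), ∑ i, j (x (Sum.inl i)) * t ^ (i : ℕ), ?_, hy⟩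
  intro h0
  have h1 := key _ h0
  rw [h0, zero_mul] at hy
  have h2 := key _ ((mul_eq_zero.mp hy.symm).resolve_right hb)
  apply hx
  funext i
  rcases i with i | i
  · exact h1 i
  · exact h2 i

omit [Nontrivial S] [NoZeroDivisors S] in
include hσ in
/-- Right polynomials. -/
theorem OreExt.right_exists (h : OreExt j t) (n : ℕ) : ∀ x ∈ h.F n,
    ∃ c : ℕ → S, x = ∑ i ∈ Finset.range (n + 1), t ^ i * j (c i) := by
  have hj : ∀ a : S, j a ∈ h.F 0 := by
    intro a i hi
    rw [h.cL_j, Finsupp.single_apply, if_neg (by omega)]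
  induction n with
  | zero =>
    intro x hx
    refine ⟨fun _ => h.cL x 0, ?_⟩
    have h1 : h.cL x = Finsupp.single 0 (h.cL x 0) := by
      ext i
      rw [Finsupp.single_apply]
      split_ifs with h2
      · rw [h2]
      · exact hx i (by omega)
    have h2 := h.sum_cL x
    rw [h1, Finsupp.sum_single_index (by rw [map_zero, zero_mul])] at h2
    simpa using h2.symm
  | succ n ih =>
    intro x hx
    let r : S := (σ ^ (n + 1) : S ≃+* S).symm (h.cL x (n + 1))
    have h1 := h.pow_mul σ δ hσ (n + 1) (hj r)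
    rw [zero_add] at h1
    have h2 : x - t ^ (n + 1) * j r ∈ h.F n := by
      intro i hi
      rw [map_sub, Finsupp.sub_apply]
      by_cases h3 : i = n + 1
      · rw [h3, h1.2, h.cL_j, Finsupp.single_eq_same]
        simp only [r, RingEquiv.apply_symm_apply, sub_self]
      · rw [hx i (by omega), h1.1 i (by omega), sub_zero]
    obtain ⟨c, hc⟩ := ih _ h2
    refine ⟨fun i => if i = n + 1 then r else c i, ?_⟩
    rw [Finset.sum_range_succ]
    simp only [if_true]
    have h3 : ∑ i ∈ Finset.range (n + 1), t ^ i * j (if i = n + 1 then r else c i) =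
        ∑ i ∈ Finset.range (n + 1), t ^ i * j (c i) := by
      refine Finset.sum_congr rfl fun i hi => ?_
      rw [if_neg (by have := Finset.mem_range.mp hi; omega)]
    rw [h3, ← hc, sub_add_cancel]

omit [Nontrivial S] [NoZeroDivisors S] in
include hσ in
theorem OreExt.right_unique (h : OreExt j t) (c : ℕ →₀ S)
    (hc : c.sum (fun i s => t ^ i * j s) = 0) : c = 0 := by
  by_contra hne
  have hsup : c.support.Nonempty := Finsupp.support_nonempty_iff.mpr hne
  obtain ⟨n, hn, h2⟩ := Finset.exists_mem_eq_sup c.support hsup id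
  have hle : ∀ i ∈ c.support, i ≤ n := by
    intro i hi
    have := Finset.le_sup (f := id) hi
    rw [h2] at this
    exact this
  have hj : ∀ a : S, j a ∈ h.F 0 := by
    intro a i hi
    rw [h.cL_j, Finsupp.single_apply, if_neg (by omega)]
  have h3 := congrArg (fun z => h.cL z n) hc
  simp only [map_zero, Finsupp.sum, map_sum, Finsupp.finsetSum_apply] at h3
  rw [Finset.sum_eq_single n] at h3
  · have h4 := (h.pow_mul σ δ hσ n (hj (c n))).2
    rw [zero_add, h.cL_j, Finsupp.single_eq_same] at h4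
    rw [h4] at h3
    exact (Finsupp.mem_support_iff.mp hn) ((EmbeddingLike.map_eq_zero_iff).mp h3)
  · intro i hi hin
    have h5 := hle i hi
    have h4 := (h.pow_mul σ δ hσ i (hj (c i))).1
    exact h4 n (by omega)
  · intro h4
    exact absurd hn h4

end

/-- Ore extensions are filtered extensions. -/
theorem OreExt.filtered {S R : Type u} [Ring S] [Ring R] {j : S →+* R} {t : R}
    (h : OreExt j t) (hS : LeftOreDomain S) : FilteredExt j := by
  classical
  obtain ⟨h1, h2, hLO⟩ := hS
  obtain ⟨σ, δ, hσ⟩ := h.comm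
  have hnt := h.nontrivial
  have hnz := h.noZeroDivisors σ δ hσ
  refine ⟨⟨hnt, hnz, h.lo σ δ hσ hLO⟩, ⟨ULift.{u} ℕ, fun i => t ^ i.down, ⟨⟨0⟩, pow_zero t⟩, ?_⟩,
    ⟨{fun x => (h.deg x : ℤ)}, ?_, ?_⟩⟩
  · intro x
    obtain ⟨n, hn⟩ := h.exists_F x
    obtain ⟨c, hc⟩ := h.right_exists σ δ hσ n x hn
    -- transfer between the two index types
    have htr : ∀ c : ULift.{u} ℕ →₀ S, c.sum (fun i s => t ^ i.down * j s) =
        (c.equivMapDomain (Equiv.ulift.{u})).sum (fun i s => t ^ i * j s) := by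
      intro c
      rw [Finsupp.sum_equivMapDomain]
      rfl
    refine ⟨(Finsupp.onFinset (Finset.range (n + 1))
      (fun i => if i ∈ Finset.range (n + 1) then c i else 0) (by
        intro i hi
        by_contra h3
        exact hi (if_neg h3))).equivMapDomain (Equiv.ulift.{u}).symm, ?_, ?_⟩
    · simp only
      rw [Finsupp.sum_equivMapDomain, Finsupp.onFinset_sum _ (fun i => by rw [map_zero, mul_zero])]
      rw [hc]
      refine Finset.sum_congr rfl fun i hi => ?_
      rw [if_pos hi]
      rfl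
    · intro c' hc'
      simp only at hc'
      rw [htr] at hc'
      apply (Finsupp.equivCongrLeft (M := S) (Equiv.ulift.{u} (α := ℕ))).injective
      change c'.equivMapDomain Equiv.ulift = (Finsupp.equivMapDomain _ _).equivMapDomain _
      rw [← Finsupp.equivMapDomain_trans]
      rw [Equiv.symm_trans_self, Finsupp.equivMapDomain_refl, ← sub_eq_zero]
      refine h.right_unique σ δ hσ _ ?_
      rw [Finsupp.sum_sub_index (fun i s r => by rw [map_sub, mul_sub]), hc',
        Finsupp.onFinset_sum _ (fun i => by rw [map_zero, mul_zero]), sub_eq_zero, hc]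
      refine Finset.sum_congr rfl fun i hi => ?_
      rw [if_pos hi]
  · intro w hw
    rw [Finset.mem_singleton] at hw
    subst hw
    refine ⟨fun a b ha hb => ?_, fun a b ha hb hab => ?_⟩
    · simp only
      rw [(h.mul_spec σ δ hσ ha hb).2]
      push_cast
      rfl
    · simp only
      have h3 : h.deg (a + b) ≤ max (h.deg a) (h.deg b) :=
        h.mem_F.mp (h.F_add (h.mem_F.mpr (le_max_left _ _)) (h.mem_F.mpr (le_max_right _ _)))
      exact_mod_cast h3
  · intro m
    refine ⟨(Finset.range (m.toNat + 1)).image (fun i => t ^ i), fun x hx => ?_⟩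
    have h3 : (h.deg x : ℤ) ≤ m := hx _ (Finset.mem_singleton_self _)
    have h4 : x ∈ h.F m.toNat := h.mem_F.mpr (by omega)
    obtain ⟨c, hc⟩ := h.right_exists σ δ hσ _ x h4
    have hinj : ∀ i k : ℕ, t ^ i = t ^ k → i = k := by
      intro i k hik
      have h5 := h.cL_pow i
      rw [hik, h.cL_pow] at h5
      have h6 := Finsupp.single_left_injective (one_ne_zero (α := S)) h5
      exact h6.symm
    let e : R → ℕ := fun y => if hy : ∃ i : ℕ, t ^ i = y then hy.choose else 0
    have he : ∀ i : ℕ, e (t ^ i) = i := by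
      intro i
      have hy : ∃ k : ℕ, t ^ k = t ^ i := ⟨i, rfl⟩
      simp only [e, dif_pos hy]
      exact hinj _ _ hy.choose_spec
    refine ⟨fun y => c (e y), ?_⟩
    rw [Finset.sum_image (fun i _ k _ hik => hinj i k hik)]
    rw [hc]
    exact Finset.sum_congr rfl fun i _ => by simp only [he]

end Pool.Agent.Run7.h822.NV
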