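import Pool.Agent.Run7.h822.NV.Ext
import Pool.Agent.Run7.h822.NV.Deg
import Pool.Agent.Run7.h822.NV.Fld
import Pool.Agent.Run7.h822.NV.Defs
import Pool.Agent.Run7.h822.NV.Ore

/-!
# Rings of finite depth are good
-/

namespace Pool.Agent.Run7.h822.NV

open Pool.Agent.N506.EX

universe u v w

/-- Products. -/
theorem good_prod {R S : Type u} [Ring R] [Ring S] {d : ℕ} (hR : Good R d) (hS : Good S d) :
    Good (R × S) d := by
  classical
  intro X K B c W A hA Adj hAdj hF ε hε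
  have h1 : Sys R d c W (fun x y γ β => (A x y γ β).1) :=
    { mono := hA.mono
      supp := fun ℓ hℓ x y hxy β hβ γ hγ => by rw [hA.supp ℓ hℓ x y hxy β hβ γ hγ]; rfl
      refl := fun ℓ hℓ x β hβ => ⟨by rw [(hA.refl ℓ hℓ x β hβ).1]; rfl,
        fun γ hγ => by rw [(hA.refl ℓ hℓ x β hβ).2 γ hγ]; rfl⟩
      mul := fun ℓ hℓ x y z h1 h2 β hβ δ => by
        rw [hA.mul ℓ hℓ x y z h1 h2 β hβ δ, Prod.fst_sum]
        rfl }
  have h2 : Sys S d c W (fun x y γ β => (A x y γ β).2) :=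
    { mono := hA.mono
      supp := fun ℓ hℓ x y hxy β hβ γ hγ => by rw [hA.supp ℓ hℓ x y hxy β hβ γ hγ]; rfl
      refl := fun ℓ hℓ x β hβ => ⟨by rw [(hA.refl ℓ hℓ x β hβ).1]; rfl,
        fun γ hγ => by rw [(hA.refl ℓ hℓ x β hβ).2 γ hγ]; rfl⟩
      mul := fun ℓ hℓ x y z h1 h2 β hβ δ => by
        rw [hA.mul ℓ hℓ x y z h1 h2 β hβ δ, Prod.snd_sum]
        rfl }
  have hF1 : FT d W (fun x y γ β => (A x y γ β).1) Adj := by
    refine (hF.image Prod.fst).subset ?_
    rintro r ⟨ℓ, hℓ, x, y, hxy, β, hβ, γ, h | h⟩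
    · exact ⟨_, ⟨ℓ, hℓ, x, y, hxy, β, hβ, γ, Or.inl rfl⟩, h.symm⟩
    · exact ⟨_, ⟨ℓ, hℓ, x, y, hxy, β, hβ, γ, Or.inr rfl⟩, h.symm⟩
  have hF2 : FT d W (fun x y γ β => (A x y γ β).2) Adj := by
    refine (hF.image Prod.snd).subset ?_
    rintro r ⟨ℓ, hℓ, x, y, hxy, β, hβ, γ, h | h⟩
    · exact ⟨_, ⟨ℓ, hℓ, x, y, hxy, β, hβ, γ, Or.inl rfl⟩, h.symm⟩
    · exact ⟨_, ⟨ℓ, hℓ, x, y, hxy, β, hβ, γ, Or.inr rfl⟩, h.symm⟩
  obtain ⟨C, hC, hW⟩ := hR X K B c W _ h1 Adj hAdj hF1 (ε / 2) (by positivity)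
  obtain ⟨C', hC', hW'⟩ := hS X K B c W _ h2 Adj hAdj hF2 (ε / 2) (by positivity)
  refine ⟨C ×ˢ C', hC.prod hC', (WF.prod hε hW hW').mono (fun _ _ h => h) le_rfl ?_⟩
  rintro x y ⟨k1, k2⟩ hxy β hβ γ
  exact ⟨k1 hxy β hβ γ, k2 hxy β hβ γ⟩

/-- Filtered extensions. -/
theorem FilteredExt.good {S R : Type u} [Ring S] [Ring R] {j : S →+* R} (h : FilteredExt j)
    {d : ℕ} (hS : Good S d) : Good R (d + 3) := by
  classical
  obtain ⟨h1, h2, hLO⟩ := h.ore
  obtain ⟨I, b, ⟨i₀, hb⟩, hbas⟩ := h.free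
  obtain ⟨W, hW, hbd⟩ := h.bounded
  choose c hc hcu using hbas
  simp only at hc hcu
  have hz : ∀ i : I, b i * j 0 = 0 := fun i => by rw [map_zero, mul_zero]
  have hadd' : ∀ (i : I) (s t : S), b i * j (s + t) = b i * j s + b i * j t :=
    fun i s t => by rw [map_add, mul_add]
  -- the coordinates
  let c' : R →+ (I →₀ S) :=
    { toFun := c
      map_zero' := by
        refine (hcu 0 0 ?_).symm
        exact Finsupp.sum_zero_index
      map_add' := fun x y => by
        refine (hcu (x + y) (c x + c y) ?_).symm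
        rw [Finsupp.sum_add_index' (fun i => hz i) (fun i s t => hadd' i s t), hc, hc] }
  have hcm : ∀ x s i, c' (x * j s) i = c' x i * s := by
    intro x s i
    have h3 : (c x).mapRange (fun t => t * s) (zero_mul s) = c (x * j s) := by
      refine hcu (x * j s) _ ?_
      rw [Finsupp.sum_mapRange_index (fun i => hz i)]
      conv_rhs => rw [← hc x]
      rw [Finsupp.sum, Finsupp.sum, Finset.sum_mul]
      exact Finset.sum_congr rfl fun i _ => by rw [map_mul, mul_assoc]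
    change c (x * j s) i = c x i * s
    rw [← h3, Finsupp.mapRange_apply]
  have hcb : ∀ i, c' (b i) = Finsupp.single i 1 := by
    intro i
    refine (hcu (b i) (Finsupp.single i 1) ?_).symm
    rw [Finsupp.sum_single_index (hz i), map_one, mul_one]
  -- the bounding sets
  let O : ℕ → Set R := fun m => ⋂ w ∈ W, {x | x = 0 ∨ w x ≤ m}
  have hB : Bdd R O := Bdd.pi W (fun w m => {x | x = 0 ∨ w x ≤ m}) (by
    intro w m n hmn x hx
    rcases hx with hx | hx
    · exact Or.inl hx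
    · exact Or.inr (hx.trans (by exact_mod_cast hmn))) (fun w hw =>
      bdd_deg hLO w (hW w hw).1 (hW w hw).2)
  -- supports
  have hsupp : ∀ m : ℤ, ∃ U : Finset I, ∀ x : R, (∀ w ∈ W, w x ≤ m) → (c' x).support ⊆ U := by
    intro m
    obtain ⟨T, hT⟩ := hbd m
    refine ⟨T.biUnion fun t => (c' t).support, fun x hx => ?_⟩
    obtain ⟨s, hs⟩ := hT x hx
    intro i hi
    rw [Finsupp.mem_support_iff] at hi
    by_contra hcon
    apply hi
    rw [hs, map_sum, Finsupp.finsetSum_apply]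
    refine Finset.sum_eq_zero fun t ht => ?_
    rw [hcm]
    have h4 : c' t i = 0 := by
      by_contra h5
      exact hcon (Finset.mem_biUnion.mpr ⟨t, ht, Finsupp.mem_support_iff.mpr h5⟩)
    rw [h4, zero_mul]
  refine good_extend j b i₀ hb c' hc hcm hcb O hB ?_ hS
  intro m T
  -- a bound for the degrees of the basis elements
  obtain ⟨M, hM⟩ : ∃ M : ℕ, ∀ τ ∈ T, ∀ w ∈ W, w (b τ) ≤ M := by
    refine ⟨∑ τ ∈ T, ∑ w ∈ W, (w (b τ)).natAbs, fun τ hτ w hw => ?_⟩
    have h3 : (w (b τ)).natAbs ≤ ∑ τ ∈ T, ∑ w ∈ W, (w (b τ)).natAbs :=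
      (Finset.single_le_sum (f := fun w : R → ℤ => (w (b τ)).natAbs)
        (fun _ _ => Nat.zero_le _) hw).trans
        (Finset.single_le_sum (f := fun τ => ∑ w ∈ W, (w (b τ)).natAbs)
          (fun _ _ => Nat.zero_le _) hτ)
    omega
  obtain ⟨U, hU⟩ := hsupp (m + M)
  refine ⟨U, fun x hx τ hτ => ?_⟩
  by_cases h0 : x * b τ = 0
  · rw [h0, map_zero]
    simp
  · refine hU _ fun w hw => ?_
    have hx0 : x ≠ 0 := fun h => h0 (by rw [h, zero_mul])
    have hb0 : b τ ≠ 0 := fun h => h0 (by rw [h, mul_zero])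
    rw [(hW w hw).1 x (b τ) hx0 hb0]
    simp only [O, Set.mem_iInter] at hx
    have h3 : w x ≤ m := (hx w hw).resolve_left hx0
    have h4 := hM τ hτ w hw
    omega

/-- The depth function. -/
noncomputable def dd (k : ℕ) : ℕ := 5 + k * (pe.{u} + 4)

theorem dd_succ (k : ℕ) : dd.{u} (k + 1) = dd.{u} k + pe.{u} + 4 := by
  unfold dd
  ring

/-- Rings of finite depth are good. -/
theorem Depth.good {k : ℕ} {R : Type u} [Ring R] (h : Depth k R) : Good R (dd.{u} k) := by
  induction h with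
  | field k F s hs h =>
    refine (good_field k F s hs h).le ?_
    unfold dd
    have := Nat.mul_le_mul_left k (show pe.{u} + 1 ≤ pe.{u} + 4 by omega)
    omega
  | matrix k S R n f hf h ih => exact ih.matrix (Fin n) f hf
  | prod k S R hS hR ihS ihR => exact good_prod ihS ihR
  | ore k S R j t hS ht h ih =>
    refine ((ht.filtered hS).good ih).le ?_
    rw [dd_succ]
    omega
  | filtered k S R j hj h ih =>
    refine (hj.good ih).le ?_
    rw [dd_succ]
    omega
  | union k R L hL h ih =>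
    have h1 : Good R (dd.{u} k + 1) := by
      refine Good.of_local (by unfold dd; omega) fun s hs => ?_
      obtain ⟨s, rfl⟩ := hs.exists_finset_coe
      exact ⟨L s, hL s, ih s⟩
    refine h1.le ?_
    rw [dd_succ]
    omega

/-- Rings which are locally of finite depth are matrix-exact. -/
theorem mex_of_depth {R : Type u} [Ring R]
    (h : ∀ s : Finset R, ∃ (k : ℕ) (S : Subring R), (s : Set R) ⊆ S ∧ Depth k S) : MEx R := by
  refine MEx.of_local fun s => ?_
  obtain ⟨k, S, hs, hS⟩ := h s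
  exact ⟨S, hs, hS.good.mex⟩

/-- The powers of the kernel of the induced homomorphism. -/
theorem exists_pow {R S : Type u} [Ring R] [Ring S] (f : R →+* S) (J : Ideal R) [J.IsTwoSided]
    (H : ∀ a ∈ J, f a = 0) (n : ℕ) :
    ∀ x ∈ (RingHom.ker (Ideal.Quotient.lift J f H)) ^ n,
      ∃ y ∈ (RingHom.ker f) ^ n, Ideal.Quotient.mk J y = x := by
  induction n with
  | zero =>
    intro x _
    obtain ⟨y, hy⟩ := Ideal.Quotient.mk_surjective x
    refine ⟨y, ?_, hy⟩
    rw [Submodule.pow_zero, Ideal.one_eq_top]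
    trivial
  | succ n ih =>
    intro x hx
    rw [Submodule.pow_succ] at hx
    refine Submodule.mul_induction_on hx ?_ ?_
    · intro a ha b hb
      obtain ⟨y, hy, hya⟩ := ih a ha
      obtain ⟨z, hz⟩ := Ideal.Quotient.mk_surjective b
      refine ⟨y * z, ?_, by rw [map_mul, hya, hz]⟩
      rw [Submodule.pow_succ]
      refine Ideal.mul_mem_mul hy ?_
      rw [RingHom.mem_ker] at hb ⊢
      rw [← hz, Ideal.Quotient.lift_mk] at hb
      exact hb
    · rintro a b ⟨y, hy, rfl⟩ ⟨z, hz, rfl⟩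
      exact ⟨y + z, Ideal.add_mem _ hy hz, map_add _ _ _⟩

/-- Nilpotent kernels. -/
theorem mex_of_nilpotent (m : ℕ) : ∀ {R S : Type u} [Ring R] [Ring S], MEx S → ∀ (f : R →+* S),
    (RingHom.ker f) ^ (m + 1) = ⊥ → MEx R := by
  induction m with
  | zero =>
    intro R S _ _ hS f hf
    refine hS.of_injective f ?_
    rw [zero_add, Submodule.pow_one] at hf
    rwa [RingHom.injective_iff_ker_eq_bot]
  | succ m ih =>
    intro R S _ _ hS f hf
    let J : Ideal R := (RingHom.ker f) ^ (m + 1)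
    have H : ∀ a ∈ J, f a = 0 := fun a ha =>
      (RingHom.mem_ker).mp (Ideal.pow_le_self (by omega) ha)
    have h1 : MEx (R ⧸ J) := by
      refine ih hS (Ideal.Quotient.lift J f H) ?_
      rw [eq_bot_iff]
      intro x hx
      obtain ⟨y, hy, rfl⟩ := exists_pow f J H (m + 1) x hx
      rw [Submodule.mem_bot]
      exact Ideal.Quotient.eq_zero_iff_mem.mpr hy
    refine h1.of_sq_zero (Ideal.Quotient.mk J) ?_
    intro x y hx hy
    rw [Ideal.Quotient.eq_zero_iff_mem] at hx hy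
    have h2 : x * y ∈ J * J := Ideal.mul_mem_mul hx hy
    have h3 : J * J = (RingHom.ker f) ^ (m + 1 + (m + 1)) :=
      (Ideal.IsTwoSided.pow_add _ _).symm
    rw [h3] at h2
    have h4 := Ideal.pow_le_pow_right (I := RingHom.ker f)
      (show m + 1 + 1 ≤ m + 1 + (m + 1) by omega) h2
    rw [hf, Submodule.mem_bot] at h4
    exact h4

end Pool.Agent.Run7.h822.NV
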