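import Pool.Agent.N506.EYL

/-!
# The step from a ring to a free right extension
-/

namespace Pool.Agent.Run7.h822.NV

open Pool.Agent.N506.EX

universe u v w

/-- The step from a ring `S` to an extension `R` which is free as a right `S`-module: `c` gives the
coordinates with respect to the basis `b`, the element `1` belongs to the basis, and the bounded
elements move each finite part of the basis into a finite part. -/
theorem good_extend {S R : Type u} [Ring S] [Ring R] (j : S →+* R) {I : Type u} (b : I → R)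
    (i₀ : I) (hb : b i₀ = 1) (c : R →+ (I →₀ S))
    (hc : ∀ x, (c x).sum (fun i s => b i * j s) = x)
    (hcm : ∀ x s i, c (x * j s) i = c x i * s)
    (hcb : ∀ i, c (b i) = Finsupp.single i 1)
    (O : ℕ → Set R) (hB : Bdd R O)
    (hT : ∀ m, ∀ T : Finset I, ∃ T' : Finset I, ∀ x ∈ O m, ∀ τ ∈ T, (c (x * b τ)).support ⊆ T')
    {d : ℕ} (hS : Good S d) : Good R (d + 3) := by
  classical
  intro X K B p W M hM Adj hAdj hF ε hε
  have hM3 : Sys R (3 + d) p W M := hM.le (by omega)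
  have hF3 : FT (3 + d) W M Adj := hF.le (by omega)
  obtain ⟨m, hm⟩ := hB X K B p (fun ℓ => W (ℓ + d)) M (hM3.shift d) Adj hAdj (hF3.shift d) (ε / 2)
    (by positivity)
  have hm' := hm.label p hAdj
  -- the windows
  choose nx hnx using hT m
  obtain ⟨T', hT'0, hT's⟩ : ∃ T' : ℕ → Finset I, T' 0 = {i₀} ∧
      ∀ ℓ, T' (ℓ + 1) = T' ℓ ∪ nx (T' ℓ) :=
    ⟨fun ℓ => Nat.rec {i₀} (fun _ U => U ∪ nx U) ℓ, rfl, fun _ => rfl⟩
  have hT'm : ∀ ℓ, T' ℓ ⊆ T' (ℓ + 1) := fun ℓ => by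
    rw [hT's]
    exact Finset.subset_union_left
  have hT'mm : ∀ m n, m ≤ n → T' m ⊆ T' n := by
    intro m n hmn
    induction n, hmn using Nat.le_induction with
    | base => exact subset_rfl
    | succ n _ ih => exact ih.trans (hT'm n)
  have hT't : ∀ ℓ, ∀ x ∈ O m, ∀ τ ∈ T' ℓ, (c (x * b τ)).support ⊆ T' (ℓ + 1) := by
    intro ℓ x hx τ hτ
    rw [hT's]
    exact (hnx (T' ℓ) x hx τ hτ).trans Finset.subset_union_right
  -- coordinates supported in a finite set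
  have hdec0 : ∀ (x : R) (U : Finset I), (c x).support ⊆ U →
      ∑ σ ∈ U, b σ * j (c x σ) = x := by
    intro x U hU
    have h1 := Finsupp.sum_of_support_subset (c x) hU (fun i s => b i * j s)
      (fun i _ => by rw [map_zero, mul_zero])
    rw [hc x] at h1
    exact h1.symm
  refine WF.fib_exists hε (fun C : Set R => C.Finite)
    (fun C x y => p x = p y → ∀ β ∈ W 0, ∀ γ, M x y γ β ∈ C) hm' ?_
  intro Z π K' κ hκ
  have hκc : ∀ z z', κ z = κ z' → p (π z) = p (π z') := fun z z' h => (hκ z z' h).1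
  have hκO : ∀ z z', κ z = κ z' → ∀ ℓ, ℓ ≤ d → ∀ β ∈ W ℓ, ∀ γ, M (π z) (π z') γ β ∈ O m := by
    intro z z' h ℓ hℓ β hβ γ
    exact (hκ z z' h).2 β (hM.mono_le (by omega) hβ) γ
  let A' : Z → Z → B × I → B × I → S :=
    fun z z' r q => c (M (π z) (π z') r.1 q.1 * b q.2) r.2
  let W' : ℕ → Finset (B × I) := fun ℓ => W ℓ ×ˢ T' ℓ
  have hW' : ∀ ℓ r, r ∈ W' ℓ ↔ r.1 ∈ W ℓ ∧ r.2 ∈ T' ℓ := fun ℓ r => Finset.mem_product
  -- decomposition
  have hdec : ∀ z z', κ z = κ z' → ∀ ℓ, ℓ ≤ d → ∀ β ∈ W ℓ, ∀ τ ∈ T' ℓ, ∀ γ,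
      ∑ σ ∈ T' (ℓ + 1), b σ * j (A' z z' (γ, σ) (β, τ)) = M (π z) (π z') γ β * b τ := by
    intro z z' h ℓ hℓ β hβ τ hτ γ
    exact hdec0 _ _ (hT't ℓ _ (hκO z z' h ℓ hℓ β hβ γ) τ hτ)
  have hA' : Sys S d κ W' A' :=
    { mono := by
        intro ℓ r hr
        rw [hW'] at hr ⊢
        exact ⟨hM.mono ℓ hr.1, hT'm ℓ hr.2⟩
      supp := by
        intro ℓ hℓ z z' h q hq r hr
        rw [hW'] at hq hr
        simp only [A']
        by_cases h1 : r.1 ∈ W (ℓ + 1)
        · by_contra h2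
          exact hr ⟨h1, hT't ℓ _ (hκO z z' h ℓ hℓ.le q.1 hq.1 r.1) q.2 hq.2
            (Finsupp.mem_support_iff.mpr h2)⟩
        · rw [hM.supp ℓ (by omega) _ _ (hκc z z' h) q.1 hq.1 r.1 h1, zero_mul, map_zero]
          rfl
      refl := by
        intro ℓ hℓ z q hq
        rw [hW'] at hq
        obtain ⟨h1, h2⟩ := hM.refl ℓ (by omega) (π z) q.1 hq.1
        refine ⟨by simp only [A']; rw [h1, one_mul, hcb, Finsupp.single_eq_same], fun r hr => ?_⟩
        simp only [A']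
        by_cases h : r.1 = q.1
        · rw [h, h1, one_mul, hcb, Finsupp.single_apply, if_neg]
          exact fun h3 => hr (Prod.ext h h3.symm)
        · rw [h2 r.1 h, zero_mul, map_zero]
          rfl
      mul := by
        intro ℓ hℓ x y z h1 h2 q hq r
        rw [hW'] at hq
        change c (M (π x) (π z) r.1 q.1 * b q.2) r.2 = _
        rw [hM.mul ℓ (by omega) _ _ _ (hκc x y h1) (hκc y z h2) q.1 hq.1 r.1, Finset.sum_mul,
          map_sum, Finset.sum_product, Finsupp.finsetSum_apply]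
        refine Finset.sum_congr rfl fun γ _ => ?_
        rw [mul_assoc, ← hdec y z h2 ℓ (by omega) q.1 hq.1 q.2 hq.2 γ, Finset.mul_sum, map_sum,
          Finsupp.finsetSum_apply]
        refine Finset.sum_congr rfl fun σ _ => ?_
        rw [← mul_assoc, hcm] }
  have hF' : FT d W' A' (fun z z' => Adj (π z) (π z') ∧ κ z = κ z') := by
    refine Set.Finite.subset (hF.biUnion (t := fun r => ⋃ τ ∈ (T' d : Set I),
      Set.range fun σ : I => c (r * b τ) σ)
      (fun r _ => (T' d).finite_toSet.biUnion fun τ _ => (c (r * b τ)).finite_range)) ?_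
    rintro r ⟨ℓ, hℓ, x, y, hxy, q, hq, r', h⟩
    rw [hW'] at hq
    simp only [Set.mem_iUnion]
    rcases h with h | h
    · exact ⟨_, ⟨ℓ, by omega, _, _, hxy.1, q.1, hq.1, r'.1, Or.inl rfl⟩, q.2,
        hT'mm ℓ d hℓ.le hq.2, r'.2, h.symm⟩
    · exact ⟨_, ⟨ℓ, by omega, _, _, hxy.1, q.1, hq.1, r'.1, Or.inr rfl⟩, q.2,
        hT'mm ℓ d hℓ.le hq.2, r'.2, h.symm⟩
  obtain ⟨C', hC', hW⟩ := hS Z K' _ κ W' A' hA' (fun z z' => Adj (π z) (π z') ∧ κ z = κ z')
    (fun _ _ h => h.2) hF' (ε / 2) (by positivity)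
  let F : (T' 1 → S) → R := fun s => ∑ σ : T' 1, b σ * j (s σ)
  refine ⟨F '' {s | ∀ σ, s σ ∈ C'}, (Set.Finite.pi' fun _ => hC').image F,
    hW.mono (fun _ _ h => h) le_rfl ?_⟩
  intro z z' h hzz _ β hβ γ
  have h1 : i₀ ∈ T' 0 := by
    rw [hT'0]
    exact Finset.mem_singleton_self _
  have h2 := hdec z z' hzz 0 (by omega) β hβ i₀ h1 γ
  refine ⟨fun σ => A' z z' (γ, (σ : I)) (β, i₀), fun σ => h hzz (β, i₀)
    (by rw [hW']; exact ⟨hβ, h1⟩) (γ, (σ : I)), ?_⟩
  simp only [F]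
  rw [hb, mul_one] at h2
  rw [← h2]
  exact Finset.sum_coe_sort (T' 1) (fun σ => b σ * j (A' z z' (γ, σ) (β, i₀)))

end Pool.Agent.Run7.h822.NV
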